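import Pool.Agent.Helper65.EV.St

/-!
# Project EV, module SURV
-/

set_option autoImplicit false

open MeasureTheory ProbabilityTheory Set Filter
open scoped ENNReal Topology

namespace Pool.Agent.Helper47.EV

open Pool.Agent.Helper65.EV Pool.Agent.Helper84.Eve

private theorem wsum_mul (w : Finset ℕ → ℝ≥0∞) (n : ℕ) (c : ℝ≥0∞) : ∀ (m : ℕ)
    (F : List (Finset ℕ) → ℝ≥0∞), wsum w n m (fun l => c * F l) = c * wsum w n m F := by
  intro m
  induction m with
  | zero => intro F; rfl
  | succ m ih =>
    intro F
    unfold wsum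
    rw [Finset.mul_sum]
    refine Finset.sum_congr rfl fun κ _ => ?_
    rw [ih]
    ring

private theorem wsum_zero (w : Finset ℕ → ℝ≥0∞) (n m : ℕ) : wsum w n m (fun _ => 0) = 0 := by
  have h := wsum_mul w n 0 m (fun _ => 0)
  simpa using h

theorem hSURV : Pool.Agent.Helper65.EV.hSURV := by
  classical
  intro w n ρ hw hρ m
  induction m with
  | zero =>
    intro a
    unfold wsum
    refine le_of_eq ?_
    rw [Set.indicator_of_mem (show ([] : List (Finset ℕ)) ∈ {l | nrep l a} from trivial)]
    simp [haz]
  | succ m ih =>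
    intro a
    have hone : ∀ b : ℕ, wsum w n m ({l | nrep l b}.indicator 1) ≤ 1 := by
      intro b
      refine le_trans (wsum_mono _ _ _ fun l => ?_) (ih b)
      refine Set.indicator_le_indicator ?_
      exact le_self_add
    have h1 : ∀ κ ∈ (Finset.range n).powerset,
        w κ * wsum w n m (fun l => ({l | nrep l a}.indicator fun l => 1 + haz ρ l a) (κ :: l)) ≤
          if IsLeast (κ : Set ℕ) a then 0 else w κ * (1 + ρ a) := by
      intro κ _
      split_ifs with hl
      · have h2 : (fun l : List (Finset ℕ) =>
            ({l | nrep l a}.indicator fun l => 1 + haz ρ l a) (κ :: l)) = fun _ => 0 := by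
          funext l
          rw [Set.indicator_of_notMem]
          intro h
          exact h.1 hl
        rw [h2, wsum_zero, mul_zero]
      · refine mul_le_mul_right (le_trans (wsum_mono _ _ _
          (G := fun l => ({l | nrep l (pos κ a)}.indicator fun l => 1 + haz ρ l (pos κ a)) l +
            ρ a * ({l | nrep l (pos κ a)}.indicator 1) l) fun l => ?_) ?_) _
        · by_cases hn : nrep l (pos κ a)
          · rw [Set.indicator_of_mem (show (κ :: l) ∈ {l | nrep l a} from ⟨hl, hn⟩),
              Set.indicator_of_mem (show l ∈ {l | nrep l (pos κ a)} from hn),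
              Set.indicator_of_mem (show l ∈ {l | nrep l (pos κ a)} from hn)]
            change 1 + (ρ a + haz ρ l (pos κ a)) ≤ 1 + haz ρ l (pos κ a) + ρ a * 1
            rw [mul_one]
            refine le_of_eq ?_
            ring
          · rw [Set.indicator_of_notMem (fun h : (κ :: l) ∈ {l | nrep l a} => hn h.2)]
            exact zero_le
        · rw [wsum_add, wsum_mul]
          calc _ ≤ 1 + ρ a * 1 := add_le_add (ih _) (mul_le_mul_right (hone _) _)
            _ = 1 + ρ a := by rw [mul_one]
    have h3 : wsum w n (m + 1) ({l | nrep l a}.indicator fun l => 1 + haz ρ l a) ≤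
        ∑ κ ∈ (Finset.range n).powerset, if IsLeast (κ : Set ℕ) a then 0 else w κ * (1 + ρ a) := by
      unfold wsum
      exact Finset.sum_le_sum h1
    refine h3.trans ?_
    rw [← Finset.sum_filter_add_sum_filter_not (Finset.range n).powerset
      (fun κ : Finset ℕ => IsLeast (κ : Set ℕ) a)] at hw
    set T := ∑ κ ∈ (Finset.range n).powerset.filter (fun κ : Finset ℕ => IsLeast (κ : Set ℕ) a), w κ
      with hT
    set N := ∑ κ ∈ (Finset.range n).powerset.filter (fun κ : Finset ℕ => ¬ IsLeast (κ : Set ℕ) a), w κ
      with hN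
    have h4 : (∑ κ ∈ (Finset.range n).powerset,
        if IsLeast (κ : Set ℕ) a then 0 else w κ * (1 + ρ a)) = N * (1 + ρ a) := by
      rw [hN, Finset.sum_mul, Finset.sum_filter]
      refine Finset.sum_congr rfl fun κ _ => ?_
      by_cases hl : IsLeast (κ : Set ℕ) a
      · rw [if_pos hl, if_neg (not_not.2 hl)]
      · rw [if_neg hl, if_pos hl]
    rw [h4]
    have hN1 : N ≤ 1 := le_trans le_add_self hw
    have hρT : ρ a ≤ T := by
      refine (hρ a).trans (le_of_eq ?_)
      rw [hT]
    calc N * (1 + ρ a) = N + N * ρ a := by ring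
      _ ≤ N + 1 * T := add_le_add le_rfl (mul_le_mul' hN1 hρT)
      _ = T + N := by rw [one_mul, add_comm]
      _ ≤ 1 := hw

end Pool.Agent.Helper47.EV
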